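import Pool.Agent.W544.PG.Defs5
import Pool.Agent.W410.PG.G2
import Pool.Agent.W417.K3.Fft2A

/-! Project PG part 4, part (G2P): coloured version of (G2). -/

set_option autoImplicit false

open Matrix Finset Module

namespace Pool.Agent.W320.PG

open Pool.Agent.W544.PG Pool.Agent.W410.PG.G2

noncomputable section

variable {n r k : ℕ}

/-! ### the projection -/

lemma proj_commC (c : Fin n → Fin r) (M : Submodule ℂ ((Fin k → Fin n) → ℂ))
    (P : ((Fin k → Fin n) → ℂ) →ₗ[ℂ] ((Fin k → Fin n) → ℂ)) (h1 : ∀ s, P s ∈ M)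
    (h3 : ∀ m ∈ M, ∀ s, ip m (s - P s) = 0)
    (hM : ∀ Z : Matrix (Fin n) (Fin n) ℂ, Zᵀ = -Z → BD c Z → ∀ s ∈ M, act Z s ∈ M)
    (Z : Matrix (Fin n) (Fin n) ℂ) (hZ : Zᵀ = -Z) (hB : BD c Z) (s : (Fin k → Fin n) → ℂ) :
    P (act Z s) = act Z (P s) := by
  have hZ' : (Zᴴ)ᵀ = -Zᴴ := by
    ext i j
    have := congrFun (congrFun hZ i) j
    simp only [Matrix.transpose_apply, Matrix.neg_apply] at this
    simp [this, Matrix.conjTranspose_apply]
  have hB' : BD c Zᴴ := by
    intro a b hab
    rw [Matrix.conjTranspose_apply, hB b a (Ne.symm hab), star_zero]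
  set d := P (act Z s) - act Z (P s) with hd
  have hdM : d ∈ M := M.sub_mem (h1 _) (hM Z hZ hB _ (h1 _))
  have h4 : act Z s - P (act Z s) + d = act Z (s - P s) := by
    rw [act_sub, hd]
    abel
  have h5 : ip d (act Z (s - P s)) = 0 := by
    rw [act_adj]
    exact h3 _ (hM _ hZ' hB' _ hdM) s
  rw [← h4, ip_add, h3 d hdM, zero_add] at h5
  have h6 := ip_self d h5
  rw [hd] at h6
  exact sub_eq_zero.1 h6

lemma kr_invC (P : ((Fin k → Fin n) → ℂ) →ₗ[ℂ] ((Fin k → Fin n) → ℂ))
    (Z : Matrix (Fin n) (Fin n) ℂ) (hZ : Zᵀ = -Z) (hc : ∀ s, P (act Z s) = act Z (P s))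
    (L : Fin (k + k) → Fin n) :
    ∑ j, ∑ l, Z l (L j) * kr P (Function.update L j l) = 0 := by
  have hZ' : ∀ a b, Z a b = - Z b a := by
    intro a b
    have := congrFun (congrFun hZ b) a
    simpa using this
  set J : Fin k → Fin n := fun i => L (Fin.castAdd k i) with hJ
  set K : Fin k → Fin n := fun i => L (Fin.natAdd k i) with hK
  have e1 : ∀ (i : Fin k) (l : Fin n), kr P (Function.update L (Fin.castAdd k i) l) =
      P (Pi.single (Function.update J i l) 1) K := by
    intro i l
    have hA : (fun i' => Function.update L (Fin.castAdd k i) l (Fin.castAdd k i')) =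
        Function.update J i l := by
      funext i'
      by_cases h : i' = i
      · subst h; simp
      · rw [Function.update_of_ne h, Function.update_of_ne]
        intro h2
        exact h (Fin.castAdd_injective _ _ h2)
    have hB : (fun i' => Function.update L (Fin.castAdd k i) l (Fin.natAdd k i')) = K := by
      funext i'
      rw [Function.update_of_ne]
      intro h2
      have := congrArg Fin.val h2
      simp at this
      omega
    unfold kr
    rw [hA, hB]
  have e2 : ∀ (i : Fin k) (l : Fin n), kr P (Function.update L (Fin.natAdd k i) l) =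
      P (Pi.single J 1) (Function.update K i l) := by
    intro i l
    have hA : (fun i' => Function.update L (Fin.natAdd k i) l (Fin.castAdd k i')) = J := by
      funext i'
      rw [Function.update_of_ne]
      intro h2
      have := congrArg Fin.val h2
      simp at this
      omega
    have hB : (fun i' => Function.update L (Fin.natAdd k i) l (Fin.natAdd k i')) =
        Function.update K i l := by
      funext i'
      by_cases h : i' = i
      · subst h; simp
      · rw [Function.update_of_ne h, Function.update_of_ne]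
        intro h2
        exact h (Fin.natAdd_injective _ _ h2)
    unfold kr
    rw [hA, hB]
  rw [Fin.sum_univ_add]
  simp only [e1, e2]
  have e3 : ∑ i, ∑ l, Z l (K i) * P (Pi.single J 1) (Function.update K i l) =
      act Z (P (Pi.single J 1)) K := rfl
  have e4 : ∑ i, ∑ l, Z l (L (Fin.natAdd k i)) * P (Pi.single J 1) (Function.update K i l) =
      act Z (P (Pi.single J 1)) K := e3
  rw [e4, ← hc, act_single, map_sum, Finset.sum_apply, ← sum_add_distrib]
  apply sum_eq_zero
  intro i _
  rw [map_sum, Finset.sum_apply, ← sum_add_distrib]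
  apply sum_eq_zero
  intro l _
  rw [map_smul, Pi.smul_apply, smul_eq_mul, hZ' l]
  show -Z (J i) l * _ + _ = _
  ring

lemma kr_supp (c : Fin n → Fin r) (a : Fin k → Fin r) (M : Submodule ℂ ((Fin k → Fin n) → ℂ))
    (P : ((Fin k → Fin n) → ℂ) →ₗ[ℂ] ((Fin k → Fin n) → ℂ)) (h1 : ∀ s, P s ∈ M)
    (h3 : ∀ m ∈ M, ∀ s, ip m (s - P s) = 0) (hS : ∀ s ∈ M, Supp c a s)
    (L : Fin (k + k) → Fin n) (hL : kr P L ≠ 0) (j : Fin (k + k)) :
    c (L j) = Fin.append a a j := by
  unfold kr at hL
  have hK : ∀ j, c (L (Fin.natAdd k j)) = a j := fun j => hS _ (h1 _) _ hL j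
  have hJ : ∀ j, c (L (Fin.castAdd k j)) = a j := by
    by_contra hcon
    push Not at hcon
    obtain ⟨i, hi⟩ := hcon
    apply hL
    have h4 : P (Pi.single (fun i => L (Fin.castAdd k i)) 1) = 0 := by
      apply ip_self
      have hm := h1 (Pi.single (fun i => L (Fin.castAdd k i)) 1)
      have h5 := h3 _ hm (Pi.single (fun i => L (Fin.castAdd k i)) 1)
      have h6 : ip (P (Pi.single (fun i => L (Fin.castAdd k i)) 1))
          (Pi.single (fun i => L (Fin.castAdd k i)) 1) = 0 := by
        unfold ip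
        apply sum_eq_zero
        intro J _
        by_cases hJ : J = fun i => L (Fin.castAdd k i)
        · have h7 : P (Pi.single (fun i => L (Fin.castAdd k i)) 1) J = 0 := by
            by_contra h8
            have := hS _ hm J h8 i
            rw [hJ] at this
            exact hi this
          rw [h7, map_zero, zero_mul]
        · rw [Pi.single_eq_of_ne hJ, mul_zero]
      have h8 : ip (P (Pi.single (fun i => L (Fin.castAdd k i)) 1))
          (Pi.single (fun i => L (Fin.castAdd k i)) 1) =
          ip (P (Pi.single (fun i => L (Fin.castAdd k i)) 1))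
            (Pi.single (fun i => L (Fin.castAdd k i)) 1 -
              P (Pi.single (fun i => L (Fin.castAdd k i)) 1)) +
          ip (P (Pi.single (fun i => L (Fin.castAdd k i)) 1))
            (P (Pi.single (fun i => L (Fin.castAdd k i)) 1)) := by
        rw [← ip_add, sub_add_cancel]
      rw [h6, h5, zero_add] at h8
      exact h8.symm
    rw [h4]
    rfl
  refine Fin.addCases (fun i => ?_) (fun i => ?_) j
  · rw [Fin.append_left]; exact hJ i
  · rw [Fin.append_right]; exact hK i

lemma ns_append (a : Fin k → Fin r) (i : Fin r) :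
    (univ.filter fun l : Fin (k + k) => Fin.append a a l = i).card = 2 * ns a i := by
  unfold ns
  rw [card_filter, Fin.sum_univ_add]
  simp only [Fin.append_left, Fin.append_right]
  rw [← card_filter]
  ring

lemma kr_spanC (c : Fin n → Fin r) (a : Fin k → Fin r) (M : Submodule ℂ ((Fin k → Fin n) → ℂ))
    (P : ((Fin k → Fin n) → ℂ) →ₗ[ℂ] ((Fin k → Fin n) → ℂ)) (h1 : ∀ s, P s ∈ M)
    (h3 : ∀ m ∈ M, ∀ s, ip m (s - P s) = 0) (hS : ∀ s ∈ M, Supp c a s)
    (hc : ∀ Z : Matrix (Fin n) (Fin n) ℂ, Zᵀ = -Z → BD c Z → ∀ s, P (act Z s) = act Z (P s))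
    (hn : ∀ j, 2 * ns a (a j) < (univ.filter fun b => c b = a j).card) :
    kr P ∈ Submodule.span ℂ (Pool.Agent.W417.K3.Fft2.Gens (n := n) (k := k + k) c
      (fun _ => (1 : ℂ)) univ) := by
  apply Pool.Agent.W417.K3.Fft2.key c (fun _ => (1 : ℂ)) (fun _ => one_ne_zero)
    (Fin.append a a) univ
  · intro j _
    rw [ns_append]
    refine Fin.addCases (fun i => ?_) (fun i => ?_) j
    · rw [Fin.append_left]; exact hn i
    · rw [Fin.append_right]; exact hn i
  · intro J J' h
    have : J = J' := funext fun j => h j (mem_univ _)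
    rw [this]
  · intro x y hxy hcl J
    obtain ⟨Z, hZdef⟩ : ∃ Z : Matrix (Fin n) (Fin n) ℂ, ∀ l m, Z l m =
      (if l = y ∧ m = x then 1 else 0) - (if l = x ∧ m = y then 1 else 0) :=
      ⟨Matrix.of fun l m => (if l = y ∧ m = x then 1 else 0) - (if l = x ∧ m = y then 1 else 0),
        fun _ _ => rfl⟩
    have hZ : Zᵀ = -Z := by
      ext l m
      rw [Matrix.transpose_apply, Matrix.neg_apply, hZdef, hZdef]
      by_cases c1 : l = x <;> by_cases c2 : l = y <;> by_cases c3 : m = x <;>
        by_cases c4 : m = y <;> simp [c1, c2, c3, c4, hxy, hxy.symm]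
    have hBZ : BD c Z := by
      intro l m hlm
      rw [hZdef, if_neg, if_neg, sub_zero]
      · rintro ⟨rfl, rfl⟩
        exact hlm hcl
      · rintro ⟨rfl, rfl⟩
        exact hlm hcl.symm
    have h := kr_invC P Z hZ (hc Z hZ hBZ) J
    have e : ∀ j, ∑ l, Z l (J j) * kr P (Function.update J j l) =
        (if J j = x then kr P (Function.update J j y) else 0) -
        (if J j = y then kr P (Function.update J j x) else 0) := by
      intro j
      simp only [hZdef, sub_mul, sum_sub_distrib]
      congr 1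
      · rw [sum_eq_single y]
        · simp
        · intro l _ hl
          simp [hl]
        · simp
      · rw [sum_eq_single x]
        · simp
        · intro l _ hl
          simp [hl]
        · simp
    rw [sum_congr rfl (fun j _ => e j), sum_sub_distrib] at h
    rw [sum_filter, sum_filter]
    simp only [one_mul]
    exact sub_eq_zero.1 h
  · intro L hL j _
    exact kr_supp c a M P h1 h3 hS L hL j

/-! ### action on traceless forms -/

/-- forms acting on traceless forms of a pattern through permutations -/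
def GoodC (c : Fin n → Fin r) (a : Fin k → Fin r) (f : (Fin (k + k) → Fin n) → ℂ) : Prop :=
  ∃ C : Equiv.Perm (Fin k) → ℂ, ∀ s : (Fin k → Fin n) → ℂ, Trl s → Supp c a s →
    ∀ K : Fin k → Fin n, ∑ J, s J * f (Fin.append J K) =
      ∑ τ : Equiv.Perm (Fin k), C τ * s (fun i => K (τ i))

open Pool.Agent.W417.K3.Fft2 (DB)

lemma good_genC (hn : n ≠ 0) (c : Fin n → Fin r) (α : Fin k → Fin r)
    (f : (Fin (k + k) → Fin n) → ℂ)
    (hf : f ∈ Pool.Agent.W417.K3.Fft2.Gens (n := n) (k := k + k) c (fun _ => (1 : ℂ)) univ) :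
    GoodC c α f := by
  obtain ⟨σ, κ, hσ, hσ1, -, hfσ⟩ := hf
  have hσ2 : ∀ j, σ j ≠ j := fun j => hσ1 j (mem_univ _)
  have hinj : ∀ i j, σ i = σ j → i = j := by
    intro i j hij
    rw [← hσ i, hij, hσ]
  by_cases hA : ∃ a b : Fin k, σ (Fin.castAdd k a) = Fin.castAdd k b
  · -- a pair of source variables
    obtain ⟨a, b, hab, hlt⟩ : ∃ a b : Fin k, σ (Fin.castAdd k a) = Fin.castAdd k b ∧ a < b := by
      obtain ⟨a, b, hab⟩ := hA
      rcases lt_trichotomy a b with h | h | h
      · exact ⟨a, b, hab, h⟩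
      · subst h
        exact absurd hab (hσ2 _)
      · exact ⟨b, a, by rw [← hab, hσ], h⟩
    refine ⟨0, ?_⟩
    intro s hs hsupp K
    simp only [Pi.zero_apply, zero_mul, sum_const_zero]
    set h : (Fin k → Fin n) → ℂ := fun J =>
      ∏ j ∈ (univ.filter (fun j : Fin (k + k) => j < σ j)).erase (Fin.castAdd k a),
        DB c (fun _ => (1 : ℂ)) (κ j) (Fin.append J K j) (Fin.append J K (σ j)) with hhdef
    have hba : σ (Fin.castAdd k b) = Fin.castAdd k a := by rw [← hab, hσ]
    have hfe : ∀ J, s J * f (Fin.append J K) =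
        s J * ((if J a = J b then 1 else 0) *
          ((if α a = κ (Fin.castAdd k a) then 1 else 0) * h J)) := by
      intro J
      by_cases hsJ : s J = 0
      · rw [hsJ, zero_mul, zero_mul]
      congr 1
      rw [hfσ, ← mul_prod_erase _ _ (show Fin.castAdd k a ∈
        univ.filter (fun j : Fin (k + k) => j < σ j) from by
          rw [mem_filter, hab]
          exact ⟨mem_univ _, Fin.lt_def.2 (Fin.lt_def.1 hlt)⟩), ← mul_assoc]
      congr 1
      rw [hab, Fin.append_left, Fin.append_left, DB, hsupp J hsJ a]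
      by_cases e1 : J a = J b <;> by_cases e2 : α a = κ (Fin.castAdd k a) <;> simp [e1, e2]
    simp only [hfe]
    apply trace_zero hn s hs a b hlt.ne
    intro J x y
    congr 1
    simp only [hhdef]
    apply prod_congr rfl
    intro j hj
    rw [mem_erase, mem_filter] at hj
    have hja : j ≠ Fin.castAdd k a := hj.1
    have hjb : j ≠ Fin.castAdd k b := by
      rintro rfl
      have h2 := hj.2.2
      rw [hba] at h2
      have : b < a := Fin.lt_def.2 (Fin.lt_def.1 h2)
      exact lt_asymm this hlt
    have hja' : σ j ≠ Fin.castAdd k a := by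
      intro h2
      rw [← hba] at h2
      exact hjb (hinj _ _ h2)
    have hjb' : σ j ≠ Fin.castAdd k b := by
      intro h2
      rw [← hab] at h2
      exact hja (hinj _ _ h2)
    have hap : ∀ j : Fin (k + k), j ≠ Fin.castAdd k a → j ≠ Fin.castAdd k b →
        Fin.append (Function.update (Function.update J a x) b y) K j = Fin.append J K j := by
      intro j
      refine Fin.addCases (fun i => ?_) (fun i => ?_) j
      · intro h1 h2
        rw [Fin.append_left, Fin.append_left, Function.update_of_ne, Function.update_of_ne]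
        · rintro rfl; exact h1 rfl
        · rintro rfl; exact h2 rfl
      · intro _ _
        rw [Fin.append_right, Fin.append_right]
    rw [hap j hja hjb, hap (σ j) hja' hjb']
  · push Not at hA
    have hB : ∀ i : Fin k, ∃ t : Fin k, σ (Fin.castAdd k i) = Fin.natAdd k t := by
      intro i
      have : ∀ j : Fin (k + k), σ (Fin.castAdd k i) = j → ∃ t : Fin k,
          σ (Fin.castAdd k i) = Fin.natAdd k t := by
        intro j
        refine Fin.addCases (fun i' => ?_) (fun i' => ?_) j
        · intro h; exact absurd h (hA i i')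
        · intro h; exact ⟨i', h⟩
      exact this _ rfl
    choose t ht using hB
    have htinj : Function.Injective t := by
      intro i i' h
      have h2 : σ (Fin.castAdd k i) = σ (Fin.castAdd k i') := by rw [ht, ht, h]
      exact Fin.castAdd_injective _ _ (hinj _ _ h2)
    have htbij : Function.Bijective t := Finite.injective_iff_bijective.1 htinj
    let τ : Equiv.Perm (Fin k) := Equiv.ofBijective t htbij
    obtain ⟨C0, hC0⟩ : ∃ C0 : ℂ, C0 = ∏ i, (if α i = κ (Fin.castAdd k i) then (1 : ℂ) else 0) :=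
      ⟨_, rfl⟩
    refine ⟨Pi.single τ C0, ?_⟩
    intro s _ hsupp K
    have hfe : ∀ J, s J * f (Fin.append J K) =
        s J * (C0 * ∏ i, (if J i = K (t i) then (1 : ℂ) else 0)) := by
      intro J
      by_cases hsJ : s J = 0
      · rw [hsJ, zero_mul, zero_mul]
      congr 1
      rw [hfσ, prod_filter, Fin.prod_univ_add]
      have e2 : (∏ i : Fin k, if Fin.natAdd k i < σ (Fin.natAdd k i) then
          DB c (fun _ => (1 : ℂ)) (κ (Fin.natAdd k i)) (Fin.append J K (Fin.natAdd k i))
            (Fin.append J K (σ (Fin.natAdd k i))) else 1) = 1 := by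
        apply prod_eq_one
        intro i _
        obtain ⟨i', rfl⟩ := htbij.2 i
        rw [if_neg]
        rw [← ht i', hσ, ht i']
        intro h
        have := Fin.lt_def.1 h
        simp at this
        omega
      rw [e2, mul_one, hC0, ← prod_mul_distrib]
      apply prod_congr rfl
      intro i _
      rw [ht i, if_pos]
      · rw [Fin.append_left, Fin.append_right, DB, hsupp J hsJ i]
        by_cases e1 : J i = K (t i) <;> by_cases e2 : α i = κ (Fin.castAdd k i) <;> simp [e1, e2]
      · rw [Fin.lt_def]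
        simp
        omega
    simp only [hfe]
    rw [sum_eq_single (fun i => K (t i)), sum_eq_single τ]
    · simp [τ]
      ring
    · intro τ' _ hτ'
      rw [Pi.single_eq_of_ne hτ', zero_mul]
    · simp
    · intro J _ hJ
      obtain ⟨i, hi⟩ := Function.ne_iff.1 hJ
      rw [prod_eq_zero (mem_univ i), mul_zero, mul_zero]
      rw [if_neg hi]
    · simp

lemma good_spanC (hn : n ≠ 0) (c : Fin n → Fin r) (α : Fin k → Fin r)
    (f : (Fin (k + k) → Fin n) → ℂ)
    (hf : f ∈ Submodule.span ℂ
      (Pool.Agent.W417.K3.Fft2.Gens (n := n) (k := k + k) c (fun _ => (1 : ℂ)) univ)) :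
    GoodC c α f := by
  induction hf using Submodule.span_induction with
  | mem f hf => exact good_genC hn c α f hf
  | zero => exact ⟨0, fun s _ _ K => by simp⟩
  | add f g _ _ hf hg =>
    obtain ⟨C, hc⟩ := hf
    obtain ⟨C', hc'⟩ := hg
    refine ⟨C + C', fun s hs hs2 K => ?_⟩
    simp only [Pi.add_apply, mul_add, add_mul, sum_add_distrib, hc s hs hs2 K, hc' s hs hs2 K]
  | smul a f _ hf =>
    obtain ⟨C, hc⟩ := hf
    refine ⟨a • C, fun s hs hs2 K => ?_⟩
    simp only [Pi.smul_apply, smul_eq_mul, mul_assoc]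
    rw [← mul_sum, ← hc s hs hs2 K, mul_sum]
    apply sum_congr rfl
    intro J _
    ring

/-! ### eigenvectors in the blocks -/

lemma exists_basis_block (X : Matrix (Fin n) (Fin n) ℂ) (hX : Xᵀ = -X) (hX3 : X * X * X = X)
    (c : Fin n → Fin r) (hB : BD c X) (i : Fin r) (p : ℕ)
    (htr : ∑ b with c b = i, (X * X) b b = 2 * (p : ℂ)) :
    ∃ ξ : Fin p → Fin n → ℂ, LinearIndependent ℂ ξ ∧ (∀ j, X *ᵥ ξ j = -ξ j) ∧
      ∀ j x, c x ≠ i → ξ j x = 0 := by
  have hXd : ∀ b, X b b = 0 := by
    intro b
    have h1 := congrFun (congrFun hX b) b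
    simp only [Matrix.transpose_apply, Matrix.neg_apply] at h1
    have h2 : (2 : ℂ) * X b b = 0 := by linear_combination h1
    simpa using h2
  -- the projection onto the block
  set D : Matrix (Fin n) (Fin n) ℂ := Matrix.diagonal (fun b => if c b = i then 1 else 0) with hD
  have hDD : D * D = D := by
    rw [hD, Matrix.diagonal_mul_diagonal]
    congr 1
    funext b
    by_cases h : c b = i <;> simp [h]
  have hXD : X * D = D * X := by
    ext x y
    rw [hD, Matrix.mul_diagonal, Matrix.diagonal_mul]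
    by_cases hxy : c x = c y
    · rw [hxy]; ring
    · rw [hB x y hxy]; ring
  set e : Matrix (Fin n) (Fin n) ℂ := (1 / 2 : ℂ) • (X * X - X) with he
  have hXe : X * e = -e := by
    rw [he, mul_smul_comm, mul_sub, ← mul_assoc, hX3, ← smul_neg]
    congr 1
    abel
  have hee : e * e = e := by
    conv_lhs => rw [he, smul_mul_assoc, sub_mul, mul_assoc X X, hXe, mul_neg, hXe]
    module
  have heD : e * D = D * e := by
    rw [he, smul_mul_assoc, mul_smul_comm, sub_mul, mul_sub, mul_assoc, hXD, ← mul_assoc, hXD,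
      mul_assoc]
  set g : Matrix (Fin n) (Fin n) ℂ := D * e with hg
  have hgg : g * g = g := by
    rw [hg, mul_assoc, ← mul_assoc e D e, heD, mul_assoc D e e, hee, ← mul_assoc, hDD]
  have hXg : X * g = -g := by
    rw [hg, ← mul_assoc, hXD, mul_assoc, hXe, mul_neg]
  have htrg : g.trace = p := by
    rw [hg, Matrix.trace]
    have h1 : ∀ b, Matrix.diag (D * e) b = if c b = i then (1 / 2 : ℂ) * (X * X) b b else 0 := by
      intro b
      rw [Matrix.diag_apply, hD, Matrix.diagonal_mul, he, Matrix.smul_apply, Matrix.sub_apply,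
        hXd b, sub_zero, smul_eq_mul]
      by_cases h : c b = i <;> simp [h]
    rw [sum_congr rfl (fun b _ => h1 b), ← sum_filter, ← mul_sum, htr]
    ring
  have hidem : IsIdempotentElem (Matrix.toLin' g) := by
    show Matrix.toLin' g * Matrix.toLin' g = Matrix.toLin' g
    rw [Module.End.mul_eq_comp, ← Matrix.toLin'_mul, hgg]
  have hproj := LinearMap.IsIdempotentElem.isProj_range (Matrix.toLin' g) hidem
  have hfr : (finrank ℂ (LinearMap.range (Matrix.toLin' g)) : ℂ) = p := by
    rw [← hproj.trace, Matrix.trace_toLin'_eq, htrg]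
  have hfr' : finrank ℂ (LinearMap.range (Matrix.toLin' g)) = p := by exact_mod_cast hfr
  let b : Basis (Fin p) ℂ (LinearMap.range (Matrix.toLin' g)) :=
    Module.finBasisOfFinrankEq ℂ _ hfr'
  refine ⟨fun j => (b j : Fin n → ℂ), ?_, ?_, ?_⟩
  · exact b.linearIndependent.map' (LinearMap.range (Matrix.toLin' g)).subtype
      (Submodule.ker_subtype _)
  · intro j
    obtain ⟨w, hw⟩ := (b j).2
    show X *ᵥ ((b j : Fin n → ℂ)) = -(b j : Fin n → ℂ)
    rw [← hw, Matrix.toLin'_apply, Matrix.mulVec_mulVec, hXg, Matrix.neg_mulVec]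
  · intro j x hx
    obtain ⟨w, hw⟩ := (b j).2
    show (b j : Fin n → ℂ) x = 0
    rw [← hw, Matrix.toLin'_apply, hg, ← Matrix.mulVec_mulVec, hD, Matrix.mulVec_diagonal,
      if_neg hx, zero_mul]

lemma exists_xiC (X : Matrix (Fin n) (Fin n) ℂ) (hX : Xᵀ = -X) (hX3 : X * X * X = X)
    (c : Fin n → Fin r) (hB : BD c X) (a : Fin k → Fin r) (p : Fin r → ℕ)
    (htr : ∀ i, ∑ b with c b = i, (X * X) b b = 2 * (p i : ℂ)) (hp : ∀ i, ns a i ≤ p i) :
    ∃ ξ : Fin k → Fin n → ℂ, LinearIndependent ℂ ξ ∧ (∀ j, X *ᵥ ξ j = -ξ j) ∧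
      ∀ j x, c x ≠ a j → ξ j x = 0 := by
  choose η hη1 hη2 hη3 using fun i => exists_basis_block X hX hX3 c hB i (p i) (htr i)
  -- numbering of the slots of a colour
  have hnum : ∀ i, ∃ ν : {j : Fin k // a j = i} → Fin (p i), Function.Injective ν := by
    intro i
    have h1 : Fintype.card {j : Fin k // a j = i} ≤ Fintype.card (Fin (p i)) := by
      rw [Fintype.card_fin, Fintype.card_subtype]
      exact hp i
    exact ⟨_, (Function.Embedding.nonempty_of_card_le h1).some.injective⟩
  choose ν hν using hnum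
  have hval : ∀ (i : Fin r) (j : Fin k) (h : a j = i),
      η (a j) (ν (a j) ⟨j, rfl⟩) = η i (ν i ⟨j, h⟩) := by
    intro i j h
    subst h
    rfl
  refine ⟨fun j => η (a j) (ν (a j) ⟨j, rfl⟩), ?_, fun j => hη2 _ _, fun j x hx => hη3 _ _ x hx⟩
  rw [Fintype.linearIndependent_iff]
  intro g hg j₀
  have h1 : LinearIndependent ℂ (fun j : {j : Fin k // a j = a j₀} => η (a j₀) (ν (a j₀) j)) :=
    (hη1 (a j₀)).comp _ (hν (a j₀))
  rw [Fintype.linearIndependent_iff] at h1
  refine h1 (fun j => g j.1) ?_ ⟨j₀, rfl⟩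
  funext x
  rw [Finset.sum_apply]
  by_cases hx : c x = a j₀
  · have h2 := congrFun hg x
    rw [Finset.sum_apply] at h2
    rw [← h2]
    have h3 : ∑ j ∈ univ.filter (fun j => a j = a j₀), (g j • η (a j) (ν (a j) ⟨j, rfl⟩)) x =
        ∑ j, (g j • η (a j) (ν (a j) ⟨j, rfl⟩)) x := by
      apply Finset.sum_filter_of_ne
      intro j _ hj
      by_contra hja
      apply hj
      rw [Pi.smul_apply, hη3 _ _ x (by rw [hx]; exact Ne.symm hja), smul_zero]
    rw [← h3, Finset.sum_subtype (univ.filter (fun j => a j = a j₀)) (p := fun j => a j = a j₀)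
      (fun j => by simp)]
    apply sum_congr rfl
    intro j _
    rw [hval (a j₀) j.1 j.2]
  · apply sum_eq_zero
    intro j _
    rw [Pi.smul_apply, hη3 _ _ x hx, smul_zero]

/-- the result -/
theorem g2p : S_g2p := by
  intro n r k c a p X hX hX3 hB htr hn M hS hM hT hne
  rcases Nat.eq_zero_or_pos k with hk | hk
  · subst hk
    obtain ⟨s, hs, hs0⟩ := (Submodule.ne_bot_iff M).1 hne
    refine ⟨s, hs, hs0, ?_⟩
    funext J
    unfold act
    simp
  have hnsj : ∀ j, ns a (a j) ≠ 0 := by
    intro j h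
    unfold ns at h
    rw [card_eq_zero] at h
    have : j ∈ (univ.filter fun j' => a j' = a j) := mem_filter.2 ⟨mem_univ _, rfl⟩
    rw [h] at this
    exact absurd this (notMem_empty _)
  have hnj : ∀ j, 2 * ns a (a j) < (univ.filter fun b => c b = a j).card := by
    intro j
    rcases hn (a j) with h | h
    · exact h.2
    · exact absurd h (hnsj j)
  have hn0 : n ≠ 0 := by
    intro h
    have h1 := hnj ⟨0, hk⟩
    have h2 : (univ.filter fun b => c b = a ⟨0, hk⟩).card ≤ n := by
      refine (card_le_univ _).trans ?_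
      rw [Fintype.card_fin]
    omega
  obtain ⟨ξ, hξ, hξX, hξs⟩ := exists_xiC X hX hX3 c hB a p htr (fun i => by
    rcases hn i with h | h
    · exact h.1
    · omega)
  obtain ⟨η, hη⟩ := exists_dual ξ hξ
  obtain ⟨P, hP1, hP2, hP3⟩ := exists_proj M
  have hcomm := proj_commC c M P hP1 hP3 hM
  obtain ⟨C, hc⟩ := good_spanC hn0 c a (kr P)
    (kr_spanC c a M P hP1 hP3 hS (fun Z hZ hBZ s => hcomm Z hZ hBZ s) hnj)
  have hPc : ∀ s, Trl s → Supp c a s → ∀ K,
      P s K = ∑ τ : Equiv.Perm (Fin k), C τ * s (fun i => K (τ i)) := by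
    intro s hs hs2 K
    rw [P_apply, hc s hs hs2 K]
  have hd := act_dec X hX ξ hξX
  have hdt := dec_trl X hX ξ hξX
  have hds : Supp c a (dec ξ) := by
    intro J hJ j
    by_contra h
    apply hJ
    unfold dec
    exact prod_eq_zero (mem_univ j) (hξs j (J j) h)
  refine ⟨P (dec ξ), hP1 _, ?_, ?_⟩
  · intro h0
    have hc0 : ∀ ρ, C ρ = 0 := by
      apply coef_zero ξ η hη C
      intro K
      rw [← hPc _ hdt hds K, h0]
      rfl
    apply hne
    rw [Submodule.eq_bot_iff]
    intro m hm
    rw [← hP2 m hm]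
    funext K
    rw [hPc m (hT m hm) (hS m hm) K]
    simp [hc0]
  · rw [← hcomm X hX hB, hd, map_smul]

end

end Pool.Agent.W320.PG
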